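import Pool.Agent.Results.MP_7489fb_co.AsymptoticUpperBound

set_option autoImplicit false

/-!
# Double covers of the grid: explicit upper bound `(1 + O(1 / log d)) 2^d`
-/

namespace Pool.Agent.Results.MP_7489fb_co.ExplicitUpper

/-- A box `A_1 × ⋯ × A_d` in `[n]^d`, given by its sides `A_i`. -/
abbrev Box (n d : ℕ) := Fin d → Finset (Fin n)

/-- A box is proper if every side is nonempty and different from `[n]`. -/
def Proper {n d : ℕ} (B : Box n d) : Prop := ∀ i, (B i).Nonempty ∧ B i ≠ Finset.univ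

/-- A double cover of `[n]^d`: a finite family of proper boxes, repetitions allowed (a multiset),
such that every point lies in exactly two members, counted with multiplicity. -/
def IsDoubleCover (n d : ℕ) (F : Multiset (Box n d)) : Prop :=
  (∀ B ∈ F, Proper B) ∧ ∀ x : Fin d → Fin n, F.countP (fun B => ∀ i, x i ∈ B i) = 2

/-- `g n d`: the least number of members of a double cover of `[n]^d`. -/
noncomputable def g (n d : ℕ) : ℕ := sInf {m | ∃ F, IsDoubleCover n d F ∧ Multiset.card F = m}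

theorem sq_le_exp (x : ℝ) (hx : 0 ≤ x) : x ^ 2 ≤ Real.exp x := by
  have h1 := Real.add_one_le_exp (x / 2)
  have h2 : Real.exp x = Real.exp (x / 2) ^ 2 := by
    rw [sq, ← Real.exp_add]; congr 1; ring
  -- four terms of the series
  have h3 := Real.quadratic_le_exp_of_nonneg (x := x / 2) (by linarith)
  rw [h2]
  have h4 : x ≤ Real.exp (x / 2) := by
    nlinarith [sq_nonneg (x / 2 - 1)]
  exact pow_le_pow_left₀ hx h4 2

theorem cover (n : ℕ) (hn : 3 ≤ n) (k d : ℕ) (hk : 1 ≤ k) (hd : k * 2 ^ k ≤ d) :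
    ∃ F : Multiset (Box n d), IsDoubleCover n d F ∧
      (Multiset.card F : ℝ) ≤ (1 + 1 / (k : ℝ)) * 2 ^ d := by
  obtain ⟨F, hF, hc⟩ := AsymptoticUpperBound.iterate n hn k (d % k) (d / k) d
    (Nat.div_add_mod d k).symm
  refine ⟨F, hF, hc.trans ?_⟩
  apply mul_le_mul_of_nonneg_right _ (by positivity)
  have hk0 : (0 : ℝ) < k := by exact_mod_cast hk
  have hk1 : (0 : ℝ) < (k : ℝ) + 1 := by linarith
  have hp : (0 : ℝ) < 2 ^ k := by positivity
  have hk2 : ((k : ℝ) + 1) ≤ 2 ^ k := by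
    have : k + 1 ≤ 2 ^ k := Nat.lt_two_pow_self
    exact_mod_cast this
  have hq0 : 0 ≤ 1 - ((k : ℝ) + 1) / 2 ^ k := by
    rw [sub_nonneg, div_le_one hp]; exact hk2
  have hs : 2 ^ k ≤ d / k := (Nat.le_div_iff_mul_le hk).2 (by rw [mul_comm]; exact hd)
  have hq1 : 1 - ((k : ℝ) + 1) / 2 ^ k ≤ 1 := by
    have : 0 ≤ ((k : ℝ) + 1) / 2 ^ k := by positivity
    linarith
  have h1 : (1 - ((k : ℝ) + 1) / 2 ^ k) ^ (d / k) ≤ (1 - ((k : ℝ) + 1) / 2 ^ k) ^ (2 ^ k) :=
    pow_le_pow_of_le_one hq0 hq1 hs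
  have h2 : 1 - ((k : ℝ) + 1) / 2 ^ k ≤ Real.exp (-(((k : ℝ) + 1) / 2 ^ k)) := by
    have := Real.add_one_le_exp (-(((k : ℝ) + 1) / 2 ^ k))
    linarith
  have h3 : (1 - ((k : ℝ) + 1) / 2 ^ k) ^ (2 ^ k) ≤ Real.exp (-((k : ℝ) + 1)) := by
    calc _ ≤ Real.exp (-(((k : ℝ) + 1) / 2 ^ k)) ^ (2 ^ k) := pow_le_pow_left₀ hq0 h2 _
      _ = Real.exp (-((k : ℝ) + 1)) := by
        rw [← Real.exp_nat_mul]
        congr 1
        push_cast
        field_simp
  have h4 := sq_le_exp ((k : ℝ) + 1) hk1.le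
  have h5 : Real.exp (-((k : ℝ) + 1)) ≤ 1 / ((k : ℝ) + 1) ^ 2 := by
    rw [Real.exp_neg, ← one_div]
    exact one_div_le_one_div_of_le (by positivity) h4
  have h6 : ((k : ℝ) + 2) / ((k : ℝ) + 1) + 1 / ((k : ℝ) + 1) ^ 2 ≤ 1 + 1 / (k : ℝ) := by
    rw [div_add_div _ _ hk1.ne' (by positivity), one_add_div hk0.ne',
      div_le_div_iff₀ (by positivity) hk0]
    nlinarith [sq_nonneg ((k : ℝ) + 1), hk0, mul_pos hk0 hk1]
  linarith

theorem g_le (n d : ℕ) (F : Multiset (Box n d)) (hF : IsDoubleCover n d F) :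
    g n d ≤ Multiset.card F := Nat.sInf_le ⟨F, hF, rfl⟩

/-- For every `n ≥ 3`: if `k ≥ 1` and `d ≥ k 2^k` then some double cover of `[n]^d` has at most `(1 + 1/k) 2^d`
members, so `g(n, d) ≤ (1 + 1/k) 2^d`; and `g(n, d) ≤ (1 + 3 / log₂ d) 2^d` for all `d ≥ 2`. -/
theorem result (n : ℕ) (hn : 3 ≤ n) :
    (∀ k d : ℕ, 1 ≤ k → k * 2 ^ k ≤ d →
      (∃ F : Multiset (Box n d), IsDoubleCover n d F ∧
        (Multiset.card F : ℝ) ≤ (1 + 1 / (k : ℝ)) * 2 ^ d) ∧
      (g n d : ℝ) ≤ (1 + 1 / (k : ℝ)) * 2 ^ d) ∧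
    (∀ d : ℕ, 2 ≤ d → (g n d : ℝ) ≤ (1 + 3 / Real.logb 2 d) * 2 ^ d) := by
  have h1 : ∀ k d : ℕ, 1 ≤ k → k * 2 ^ k ≤ d →
      (g n d : ℝ) ≤ (1 + 1 / (k : ℝ)) * 2 ^ d := by
    intro k d hk hd
    obtain ⟨F, hF, hc⟩ := cover n hn k d hk hd
    have : (g n d : ℝ) ≤ (Multiset.card F : ℝ) := by exact_mod_cast g_le n d F hF
    exact this.trans hc
  refine ⟨fun k d hk hd => ⟨cover n hn k d hk hd, h1 k d hk hd⟩, fun d hd => ?_⟩
  -- the largest `k` with `k 2^k ≤ d`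
  obtain ⟨k, hk1, hkd, hkm⟩ : ∃ k : ℕ, 1 ≤ k ∧ k * 2 ^ k ≤ d ∧ d < (k + 1) * 2 ^ (k + 1) := by
    have hex : ∃ k : ℕ, d < (k + 1) * 2 ^ (k + 1) := by
      refine ⟨d, ?_⟩
      have : 1 ≤ 2 ^ (d + 1) := Nat.one_le_two_pow
      nlinarith
    classical
    refine ⟨Nat.find hex, ?_, ?_, Nat.find_spec hex⟩
    · rw [Nat.one_le_iff_ne_zero]
      intro h0
      have := Nat.find_spec hex
      rw [h0] at this
      norm_num at this
      omega
    · by_contra hcon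
      push Not at hcon
      have hpos : 1 ≤ Nat.find hex := by
        rw [Nat.one_le_iff_ne_zero]
        intro h0
        have := Nat.find_spec hex
        rw [h0] at this
        norm_num at this
        omega
      refine Nat.find_min hex (m := Nat.find hex - 1) (by omega) ?_
      rw [Nat.sub_add_cancel hpos]
      exact hcon
  have hdR : (2 : ℝ) ≤ d := by exact_mod_cast hd
  have hlog : 0 < Real.logb 2 d := Real.logb_pos (by norm_num) (by linarith)
  have h2 : Real.logb 2 d ≤ 3 * k := by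
    have h3 : d ≤ 2 ^ (3 * k) := by
      calc d ≤ (k + 1) * 2 ^ (k + 1) := hkm.le
        _ ≤ 2 ^ k * 2 ^ (k + 1) := by
            gcongr
            exact Nat.lt_two_pow_self
        _ = 2 ^ (2 * k + 1) := by rw [← pow_add]; congr 1; ring
        _ ≤ 2 ^ (3 * k) := Nat.pow_le_pow_right (by norm_num) (by omega)
    have h4 : (d : ℝ) ≤ (2 : ℝ) ^ (3 * k) := by exact_mod_cast h3
    have h5 := Real.logb_le_logb_of_le (b := 2) (by norm_num) (by linarith) h4
    rw [Real.logb_pow, Real.logb_self_eq_one (by norm_num)] at h5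
    push_cast at h5
    linarith
  have hk0 : (0 : ℝ) < k := by exact_mod_cast hk1
  refine (h1 k d hk1 hkd).trans ?_
  apply mul_le_mul_of_nonneg_right _ (by positivity)
  have h6 : 1 / (k : ℝ) ≤ 3 / Real.logb 2 d := by
    rw [div_le_div_iff₀ hk0 hlog]
    linarith
  linarith

end Pool.Agent.Results.MP_7489fb_co.ExplicitUpper
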